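import Mathlib

/-!
MP_034a88_co: fractional rainbow partitions by cloning and compactness (abstract part)
-/

set_option autoImplicit false

open Finset

namespace Pool.Agent.Helper95.Ct

/-- rounding of weights -/
theorem round_exists {α : Type} [Fintype α] [DecidableEq α] [Nonempty α] (v : α → ℝ)
    (hv : ∀ a, 0 ≤ v a) (hs : ∑ a, v a = 1) (N : ℕ) :
    ∃ n : α → ℕ, ∑ a, n a = N ∧ ∀ a, |(n a : ℝ) - N * v a| ≤ Fintype.card α := by
  obtain ⟨a0⟩ := ‹Nonempty α›
  have hN : (0 : ℝ) ≤ N := Nat.cast_nonneg N
  set F : ℕ := ∑ b ∈ univ.erase a0, ⌊(N : ℝ) * v b⌋₊ with hF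
  have h1 : (N : ℝ) * v a0 + ∑ b ∈ univ.erase a0, (N : ℝ) * v b = N := by
    rw [add_sum_erase univ (fun b => (N : ℝ) * v b) (mem_univ a0), ← mul_sum, hs, mul_one]
  have h2 : (F : ℝ) ≤ ∑ b ∈ univ.erase a0, (N : ℝ) * v b := by
    rw [hF]
    push_cast
    exact sum_le_sum fun b _ => Nat.floor_le (mul_nonneg hN (hv b))
  have h3 : ∑ b ∈ univ.erase a0, (N : ℝ) * v b ≤ F + (Fintype.card α - 1 : ℝ) := by
    have h4 : ∑ b ∈ univ.erase a0, (N : ℝ) * v b ≤
        ∑ b ∈ univ.erase a0, ((⌊(N : ℝ) * v b⌋₊ : ℝ) + 1) :=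
      sum_le_sum fun b _ => (Nat.lt_floor_add_one _).le
    rw [sum_add_distrib, sum_const, card_erase_of_mem (mem_univ a0), card_univ] at h4
    rw [hF]
    push_cast
    have h5 : ((Fintype.card α - 1 : ℕ) : ℝ) = (Fintype.card α - 1 : ℝ) := by
      rw [Nat.cast_sub Fintype.card_pos, Nat.cast_one]
    rw [nsmul_eq_mul, mul_one, h5] at h4
    exact h4
  have h6 : (0 : ℝ) ≤ N * v a0 := mul_nonneg hN (hv a0)
  have hFN : F ≤ N := by
    have : (F : ℝ) ≤ N := by linarith
    exact_mod_cast this
  have hc1 : (1 : ℝ) ≤ Fintype.card α := by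
    have : 1 ≤ Fintype.card α := Fintype.card_pos
    exact_mod_cast this
  refine ⟨fun a => if a = a0 then N - F else ⌊(N : ℝ) * v a⌋₊, ?_, ?_⟩
  · rw [← add_sum_erase univ (fun a => if a = a0 then N - F else ⌊(N : ℝ) * v a⌋₊) (mem_univ a0)]
    simp only [if_true]
    have h7 : ∑ b ∈ univ.erase a0, (if b = a0 then N - F else ⌊(N : ℝ) * v b⌋₊) = F := by
      rw [hF]
      apply sum_congr rfl
      intro b hb
      rw [if_neg (ne_of_mem_erase hb)]
    rw [h7]
    omega
  · intro a
    by_cases ha : a = a0
    · simp only [if_pos ha]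
      rw [ha, Nat.cast_sub hFN, abs_le]
      constructor <;> linarith
    · simp only [if_neg ha]
      rw [abs_le]
      have h8 := Nat.floor_le (mul_nonneg hN (hv a))
      have h9 := (Nat.lt_floor_add_one ((N : ℝ) * v a)).le
      constructor <;> linarith

/-- labellings with given multiplicities -/
theorem label_exists {α : Type} [Fintype α] [DecidableEq α] (N : ℕ) (n : α → ℕ)
    (hn : ∑ a, n a = N) : ∃ l : Fin N → α, ∀ a, #(univ.filter fun j => l j = a) = n a := by
  have e : Fin N ≃ Σ a, Fin (n a) := Fintype.equivOfCardEq (by simp [hn])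
  refine ⟨fun j => (e j).1, fun a => ?_⟩
  rw [card_filter, Equiv.sum_comp e (fun x => if x.1 = a then 1 else 0), Fintype.sum_sigma]
  have h : ∀ b, (∑ _k : Fin (n b), if b = a then 1 else 0) = if b = a then n b else 0 := by
    intro b
    split_ifs <;> simp
  rw [sum_congr rfl fun b _ => h b, sum_ite_eq']
  simp

section abs

variable {I : Type} [Fintype I] [DecidableEq I] (ι : I → Type) [∀ i, Fintype (ι i)]
  [∀ i, DecidableEq (ι i)]

/-- the marginals -/
def marg (x : (∀ i, ι i) → ℝ) : ∀ i, ι i → ℝ := fun i a => ∑ T, if T i = a then x T else 0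

theorem marg_cont : Continuous (marg ι) := by
  unfold marg
  refine continuous_pi fun i => continuous_pi fun a => continuous_finsetSum _ fun T _ => ?_
  split_ifs
  · exact continuous_apply T
  · exact continuous_const

/-- the cube over a set of tuples -/
def cube (S : Set (∀ i, ι i)) : Set ((∀ i, ι i) → ℝ) :=
  {x | ∀ T, (0 ≤ x T ∧ x T ≤ 1) ∧ (T ∉ S → x T = 0)}

theorem cube_compact (S : Set (∀ i, ι i)) : IsCompact (cube ι S) := by
  classical
  have h : cube ι S = Set.pi Set.univ fun T => if T ∈ S then Set.Icc (0 : ℝ) 1 else {0} := by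
    ext x
    simp only [cube, Set.mem_setOf_eq, Set.mem_pi, Set.mem_univ, true_imp_iff]
    refine forall_congr' fun T => ?_
    by_cases hT : T ∈ S
    · rw [if_pos hT, Set.mem_Icc]
      exact ⟨fun h => h.1, fun h => ⟨h, fun h' => absurd hT h'⟩⟩
    · rw [if_neg hT, Set.mem_singleton_iff]
      refine ⟨fun h => h.2 hT, fun h => ⟨?_, fun _ => h⟩⟩
      rw [h]
      exact ⟨le_rfl, zero_le_one⟩
  rw [h]
  apply isCompact_univ_pi
  intro T
  split_ifs
  · exact isCompact_Icc
  · exact isCompact_singleton

/-- the abstract fractional theorem -/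
theorem frac_abs {Q : Type} [Nonempty Q] (S : Q → Set (∀ i, ι i))
    (H : ∀ N : ℕ, (N + 1).Prime → ∀ l : ∀ i, Fin N → ι i,
      ∃ (σ : I → Equiv.Perm (Fin N)) (q : Q), ∀ j, (fun i => l i (σ i j)) ∈ S q)
    (w : ∀ i, ι i → ℝ) (W : ℝ) (hw : ∀ i a, 0 ≤ w i a) (hW : ∀ i, ∑ a, w i a = W) :
    ∃ (q : Q) (x : (∀ i, ι i) → ℝ), (∀ T, 0 ≤ x T) ∧ (∀ T, x T ≠ 0 → T ∈ S q) ∧
      ∀ i a, (∑ T : (∀ i, ι i), if T i = a then x T else 0) = w i a := by
  classical
  by_cases h0 : 0 < W
  swap
  · obtain ⟨q⟩ := ‹Nonempty Q›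
    refine ⟨q, fun _ => 0, fun _ => le_rfl, fun _ h => absurd rfl h, fun i a => ?_⟩
    have h1 : ∑ a, w i a = 0 :=
      le_antisymm ((hW i).le.trans (not_lt.1 h0)) (sum_nonneg fun a _ => hw i a)
    have h2 := (sum_eq_zero_iff_of_nonneg fun a _ => hw i a).1 h1 a (mem_univ a)
    rw [h2]
    simp
  have hne : ∀ i, Nonempty (ι i) := by
    intro i
    by_contra hcon
    rw [not_nonempty_iff] at hcon
    have h1 := hW i
    rw [univ_eq_empty, sum_empty] at h1
    exact h0.ne h1
  -- the normalised weights
  set v : ∀ i, ι i → ℝ := fun i a => w i a / W with hv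
  have hv0 : ∀ i a, 0 ≤ v i a := fun i a => div_nonneg (hw i a) h0.le
  have hv1 : ∀ i, ∑ a, v i a = 1 := by
    intro i
    rw [hv]
    simp only
    rw [← sum_div, hW i, div_self h0.ne']
  set C : Set (∀ i, ι i → ℝ) := ⋃ s ∈ Set.range S, marg ι '' cube ι s with hC
  have hCc : IsClosed C := by
    rw [hC]
    exact (Set.toFinite (Set.range S)).isClosed_biUnion fun s _ =>
      ((cube_compact ι s).image (marg_cont ι)).isClosed
  have hvC : v ∈ C := by
    rw [← hCc.closure_eq, Metric.mem_closure_iff]
    intro ε hε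
    set c : ℝ := ∑ i, (Fintype.card (ι i) : ℝ) with hc
    have hci : ∀ i, (Fintype.card (ι i) : ℝ) ≤ c := fun i =>
      single_le_sum (f := fun i => (Fintype.card (ι i) : ℝ)) (fun i _ => Nat.cast_nonneg _)
        (mem_univ i)
    obtain ⟨n0, hn0⟩ := exists_nat_gt (c / ε)
    obtain ⟨p, hp, hpp⟩ := Nat.exists_infinite_primes (n0 + 2)
    obtain ⟨N, rfl⟩ : ∃ N, p = N + 1 := ⟨p - 1, by omega⟩
    have hNpos : (0 : ℝ) < N := by
      have : 0 < N := by omega
      exact_mod_cast this
    have hNc : c / N < ε := by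
      have h1 : (n0 : ℝ) ≤ N := by
        have : n0 ≤ N := by omega
        exact_mod_cast this
      rw [div_lt_iff₀ hε] at hn0
      rw [div_lt_iff₀ hNpos]
      nlinarith
    have hex : ∀ i, ∃ l : Fin N → ι i, ∀ a,
        |(#(univ.filter fun j => l j = a) : ℝ) - N * v i a| ≤ Fintype.card (ι i) := by
      intro i
      have hi : Nonempty (ι i) := hne i
      obtain ⟨n, hn1, hn2⟩ := round_exists (v i) (hv0 i) (hv1 i) N
      obtain ⟨l, hl⟩ := label_exists N n hn1
      refine ⟨l, fun a => ?_⟩
      rw [hl a]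
      exact hn2 a
    choose l hl using hex
    obtain ⟨σ, q, hq⟩ := H N hpp l
    set lab : Fin N → (∀ i, ι i) := fun j i => l i (σ i j) with hlab
    set x : (∀ i, ι i) → ℝ := fun T => (#(univ.filter fun j => lab j = T) : ℝ) / N with hx
    have hxm : ∀ i a, marg ι x i a = (#(univ.filter fun j => l i j = a) : ℝ) / N := by
      intro i a
      have h1 : marg ι x i a =
          (∑ T : (∀ i, ι i), if T i = a then (#(univ.filter fun j => lab j = T) : ℝ) else 0) / N
          := by
        unfold marg
        rw [sum_div]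
        apply sum_congr rfl
        intro T _
        rw [hx]
        split_ifs
        · rfl
        · rw [zero_div]
      rw [h1]
      congr 1
      have h2 : ∀ T : (∀ i, ι i), (if T i = a then (#(univ.filter fun j => lab j = T) : ℝ) else 0)
          = ∑ j, if lab j = T then (if T i = a then (1 : ℝ) else 0) else 0 := by
        intro T
        split_ifs with h
        · rw [card_filter]
          push_cast
          rfl
        · simp
      rw [sum_congr rfl fun T _ => h2 T, sum_comm]
      have h3 : ∀ j, (∑ T : (∀ i, ι i), if lab j = T then (if T i = a then (1 : ℝ) else 0) else 0)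
          = if l i (σ i j) = a then 1 else 0 := by
        intro j
        rw [sum_ite_eq]
        simp [hlab]
      rw [sum_congr rfl fun j _ => h3 j,
        Equiv.sum_comp (σ i) (fun j => if l i j = a then (1 : ℝ) else 0), card_filter]
      push_cast
      rfl
    refine ⟨marg ι x, ?_, ?_⟩
    · rw [hC]
      refine Set.mem_biUnion ⟨q, rfl⟩ ⟨x, fun T => ⟨⟨?_, ?_⟩, fun hT => ?_⟩, rfl⟩
      · exact div_nonneg (Nat.cast_nonneg _) hNpos.le
      · rw [hx]
        simp only
        rw [div_le_one hNpos]
        have h4 : #(univ.filter fun j => lab j = T) ≤ N := by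
          have h5 := card_filter_le (univ : Finset (Fin N)) (fun j => lab j = T)
          rwa [card_univ, Fintype.card_fin] at h5
        exact_mod_cast h4
      · rw [hx]
        simp only
        have h4 : (univ.filter fun j => lab j = T) = ∅ := by
          rw [filter_eq_empty_iff]
          intro j _ h
          exact hT (h ▸ hq j)
        rw [h4, card_empty, Nat.cast_zero, zero_div]
    · rw [dist_pi_lt_iff hε]
      intro i
      rw [dist_pi_lt_iff hε]
      intro a
      rw [hxm i a, Real.dist_eq, abs_sub_comm]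
      have h6 : (#(univ.filter fun j => l i j = a) : ℝ) / N - v i a =
          ((#(univ.filter fun j => l i j = a) : ℝ) - N * v i a) / N := by
        field_simp
      rw [h6, abs_div, abs_of_pos hNpos]
      calc |(#(univ.filter fun j => l i j = a) : ℝ) - N * v i a| / N
          ≤ c / N := div_le_div_of_nonneg_right ((hl i a).trans (hci i)) hNpos.le
        _ < ε := hNc
  rw [hC, Set.mem_iUnion₂] at hvC
  obtain ⟨s, ⟨q, rfl⟩, x, hx, hxv⟩ := hvC
  refine ⟨q, fun T => W * x T, fun T => mul_nonneg h0.le (hx T).1.1, fun T hT => ?_, ?_⟩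
  · by_contra hcon
    apply hT
    simp only
    rw [(hx T).2 hcon, mul_zero]
  · intro i a
    have h7 : marg ι x i a = v i a := by rw [hxv]
    have h8 : (∑ T : (∀ i, ι i), if T i = a then W * x T else 0) = W * marg ι x i a := by
      unfold marg
      rw [mul_sum]
      apply sum_congr rfl
      intro T _
      split_ifs
      · rfl
      · rw [mul_zero]
    rw [h8, h7, hv]
    simp only
    rw [mul_div_cancel₀ _ h0.ne']

end abs

/-- a matching in a bipartite multigraph with `R` edges and degrees at most `n` -/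
theorem hall_two (R r n : ℕ) (u v : Fin R → Fin r)
    (hu : ∀ a, #(univ.filter fun j => u j = a) ≤ n)
    (hv : ∀ a, #(univ.filter fun j => v j = a) ≤ n) (hR : (r - 1) * n < R) :
    ∃ g : Fin r → Fin R, (∀ a, u (g a) = a) ∧ Function.Injective fun a => v (g a) := by
  have hcond : ∀ s : Finset (Fin r),
      #s ≤ #(s.biUnion fun a => (univ.filter fun j => u j = a).image v) := by
    intro s
    by_contra hcon
    rw [not_le] at hcon
    set t := s.biUnion fun a => (univ.filter fun j => u j = a).image v with ht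
    have h1 : #(univ.filter fun j => u j ∈ s) ≤ n * #t := by
      have h2 : (univ.filter fun j => u j ∈ s) ⊆ univ.filter fun j => v j ∈ t := by
        intro j hj
        rw [mem_filter] at hj ⊢
        refine ⟨mem_univ _, ?_⟩
        rw [ht, mem_biUnion]
        refine ⟨u j, hj.2, mem_image.2 ⟨j, ?_, rfl⟩⟩
        rw [mem_filter]
        exact ⟨mem_univ _, rfl⟩
      refine (card_le_card h2).trans ?_
      have h3 := card_le_mul_card_image_of_maps_to (s := univ.filter fun j => v j ∈ t) (t := t)
        (f := v) (fun j hj => (mem_filter.1 hj).2) n (fun b _ => by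
          refine (card_le_card ?_).trans (hv b)
          intro j hj
          rw [mem_filter] at hj ⊢
          exact ⟨mem_univ _, hj.2⟩)
      exact h3
    have h4 : #(univ.filter fun j => u j ∉ s) ≤ n * (r - #s) := by
      have h5 := card_le_mul_card_image_of_maps_to (s := univ.filter fun j => u j ∉ s)
        (t := (univ : Finset (Fin r)) \ s) (f := u)
        (fun j hj => by
          rw [mem_sdiff]
          exact ⟨mem_univ _, (mem_filter.1 hj).2⟩) n (fun b _ => by
          refine (card_le_card ?_).trans (hu b)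
          intro j hj
          rw [mem_filter] at hj ⊢
          exact ⟨mem_univ _, hj.2⟩)
      rw [card_univ_diff, Fintype.card_fin] at h5
      exact h5
    have h6 : #(univ.filter fun j : Fin R => u j ∈ s) + #(univ.filter fun j : Fin R => u j ∉ s)
        = R := by
      rw [card_filter_add_card_filter_not, card_univ, Fintype.card_fin]
    have h7 : #s ≤ r := by
      have := card_le_univ s
      rwa [Fintype.card_fin] at this
    have h8 : #t + (r - #s) ≤ r - 1 := by omega
    have h9 : n * #t + n * (r - #s) ≤ (r - 1) * n := by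
      rw [← mul_add, mul_comm]
      exact Nat.mul_le_mul_right n h8
    omega
  obtain ⟨f, hf, hf'⟩ := (all_card_le_biUnion_card_iff_exists_injective _).1 hcond
  have hg : ∀ a, ∃ j, u j = a ∧ v j = f a := by
    intro a
    obtain ⟨j, hj, hj'⟩ := mem_image.1 (hf' a)
    exact ⟨j, (mem_filter.1 hj).2, hj'⟩
  choose g hg1 hg2 using hg
  refine ⟨g, hg1, fun a b hab => hf ?_⟩
  simp only at hab
  rwa [hg2, hg2] at hab

/-- the residues have few preimages -/
theorem res_fib (R r n : ℕ) (hr : 0 < r) (hRn : R ≤ r * n) (a : Fin r) :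
    #(univ.filter fun j : Fin R => (⟨j.val % r, Nat.mod_lt _ hr⟩ : Fin r) = a) ≤ n := by
  have h : #(univ.filter fun j : Fin R => (⟨j.val % r, Nat.mod_lt _ hr⟩ : Fin r) = a) ≤
      #(range n) := by
    apply card_le_card_of_injOn (fun j => j.val / r)
    · intro j _
      simp only [coe_range, Set.mem_Iio]
      rw [Nat.div_lt_iff_lt_mul hr, mul_comm]
      exact lt_of_lt_of_le j.2 hRn
    · intro j hj k hk hjk
      simp only [coe_filter, mem_univ, true_and, Set.mem_setOf_eq] at hj hk
      have h1 : j.val % r = k.val % r := by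
        have := hj.trans hk.symm
        exact congrArg Fin.val this
      simp only at hjk
      apply Fin.ext
      rw [← Nat.div_add_mod j.val r, ← Nat.div_add_mod k.val r, h1, hjk]
  rwa [card_range] at h

end Pool.Agent.Helper95.Ct
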