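import Mathlib

/-!
MP_034a88_co: moving a point into the intersection of many hyperplanes; completion of partial
assignments
-/

set_option autoImplicit false

open Finset

namespace Pool.Agent.Helper95.Ct

/-- completion of partial assignments to permutations -/
theorem complete {I : Type} {r : ℕ} (f : Fin r → I → Option (Fin r))
    (hinj : ∀ i p p' v, f p i = some v → f p' i = some v → p = p') :
    ∃ σ : I → Equiv.Perm (Fin r), ∀ p i v, f p i = some v → σ i p = v := by
  classical
  have h : ∀ i, ∃ σ : Equiv.Perm (Fin r), ∀ p v, f p i = some v → σ p = v := by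
    intro i
    obtain ⟨g, hg⟩ := Finset.exists_equiv_extend_of_card_eq (α := Fin r) (β := Fin r)
      (t := univ) (by simp) (s := univ.filter fun p => (f p i).isSome = true)
      (f := fun p => (f p i).getD p) (subset_univ _) (by
        intro p hp p' hp' hpp
        simp only [coe_filter, mem_univ, true_and, Set.mem_setOf_eq] at hp hp'
        obtain ⟨v, hv⟩ := Option.isSome_iff_exists.1 hp
        obtain ⟨v', hv'⟩ := Option.isSome_iff_exists.1 hp'
        simp only [hv, hv', Option.getD_some] at hpp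
        subst hpp
        exact hinj i p p' v hv hv')
    refine ⟨Equiv.ofBijective (fun p => (g p).1) ?_, fun p v hv => ?_⟩
    · rw [Fintype.bijective_iff_injective_and_card]
      refine ⟨fun p p' hpp => g.injective (Subtype.ext hpp), rfl⟩
    · rw [Equiv.ofBijective_apply]
      have h1 := hg p (by
        rw [mem_filter, hv]
        exact ⟨mem_univ _, rfl⟩)
      rw [h1, hv, Option.getD_some]
  choose σ hσ using h
  exact ⟨σ, fun p i v => hσ i p v⟩

section move

variable {E : Type} [NormedAddCommGroup E] [InnerProductSpace ℝ E] [FiniteDimensional ℝ E]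
  {ι : Type} [Fintype ι]

/-- the signed distance (times the length of the normal) -/
noncomputable def sg (N : ι → E) (C : ι → ℝ) (q : E) (h : ι) : ℝ := C h - inner ℝ (N h) q

/-- the hyperplanes through `q` -/
def Jk (N : ι → E) (C : ι → ℝ) (q : E) : Set ι := {h | sg N C q h = 0}

theorem move (N : ι → E) (C : ι → ℝ) (q : E)
    (hspan : Submodule.span ℝ (N '' Jk N C q) ≠ Submodule.span ℝ (Set.range N)) :
    ∃ q' : E, (∀ h, ∃ κ : ℝ, 0 ≤ κ ∧ sg N C q' h = κ * sg N C q h) ∧
      Jk N C q ⊂ Jk N C q' := by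
  classical
  set U := Submodule.span ℝ (N '' Jk N C q) with hU
  have hle : U ≤ Submodule.span ℝ (Set.range N) :=
    Submodule.span_mono (Set.image_subset_range _ _)
  obtain ⟨h0, hh0⟩ : ∃ h0, N h0 ∉ U := by
    by_contra hcon
    push Not at hcon
    apply hspan
    apply le_antisymm hle
    rw [Submodule.span_le]
    rintro _ ⟨h, rfl⟩
    exact hcon h
  -- a direction orthogonal to `U`, not orthogonal to `N h0`
  obtain ⟨v0, hv0, hv0n⟩ : ∃ v0 ∈ Uᗮ, inner ℝ (N h0) v0 ≠ 0 := by
    by_contra hcon
    push Not at hcon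
    apply hh0
    rw [← Submodule.orthogonal_orthogonal U, Submodule.mem_orthogonal]
    intro u hu
    rw [real_inner_comm]
    exact hcon u hu
  have hs0 : sg N C q h0 ≠ 0 := fun h =>
    hh0 (Submodule.subset_span ⟨h0, h, rfl⟩)
  obtain ⟨v, hv, hvt⟩ : ∃ v ∈ Uᗮ, 0 < sg N C q h0 / inner ℝ (N h0) v := by
    rcases lt_or_gt_of_ne (div_ne_zero hs0 hv0n) with h | h
    · refine ⟨-v0, Submodule.neg_mem _ hv0, ?_⟩
      rw [inner_neg_right, div_neg]
      linarith
    · exact ⟨v0, hv0, h⟩
  have hJv : ∀ h ∈ Jk N C q, inner ℝ (N h) v = (0 : ℝ) := fun h hh =>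
    (Submodule.mem_orthogonal U v).1 hv (N h) (Submodule.subset_span ⟨h, hh, rfl⟩)
  obtain ⟨h1, hh1, hmin⟩ := exists_min_image
    (univ.filter fun h => 0 < sg N C q h / inner ℝ (N h) v)
    (fun h => sg N C q h / inner ℝ (N h) v) ⟨h0, mem_filter.2 ⟨mem_univ _, hvt⟩⟩
  have hh1 := (mem_filter.1 hh1).2
  set ts : ℝ := sg N C q h1 / inner ℝ (N h1) v with hts
  have hsq : ∀ h, sg N C (q + ts • v) h = sg N C q h - ts * inner ℝ (N h) v := by
    intro h
    unfold sg
    rw [inner_add_right, inner_smul_right]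
    ring
  have hp1 : inner ℝ (N h1) v ≠ (0 : ℝ) := by
    intro h
    rw [hts, h, div_zero] at hh1
    exact lt_irrefl _ hh1
  have hs1 : sg N C q h1 ≠ 0 := by
    intro h
    rw [hts, h, zero_div] at hh1
    exact lt_irrefl _ hh1
  refine ⟨q + ts • v, fun h => ?_, ?_, fun hsub => ?_⟩
  · by_cases hp : inner ℝ (N h) v = (0 : ℝ)
    · refine ⟨1, zero_le_one, ?_⟩
      rw [hsq, hp, mul_zero, sub_zero, one_mul]
    · have hsn : sg N C q h ≠ 0 := fun hh => hp (hJv h hh)
      refine ⟨1 - ts * inner ℝ (N h) v / sg N C q h, ?_, ?_⟩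
      · rcases lt_or_gt_of_ne (div_ne_zero hsn hp) with hneg | hpos
        · have h2 : ts * inner ℝ (N h) v / sg N C q h ≤ 0 := by
            have h3 : ts * inner ℝ (N h) v / sg N C q h =
                ts * (sg N C q h / inner ℝ (N h) v)⁻¹ := by
              rw [inv_div, mul_div_assoc]
            rw [h3]
            exact mul_nonpos_of_nonneg_of_nonpos hh1.le (inv_nonpos.2 hneg.le)
          linarith
        · have h2 := hmin h (mem_filter.2 ⟨mem_univ _, hpos⟩)
          have h3 : ts * inner ℝ (N h) v / sg N C q h =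
              ts / (sg N C q h / inner ℝ (N h) v) := by
            rw [div_div_eq_mul_div]
          rw [h3, sub_nonneg, div_le_one hpos]
          exact h2
      · rw [hsq]
        field_simp
  · intro h hh
    change sg N C (q + ts • v) h = 0
    rw [hsq, hJv h hh, mul_zero, sub_zero]
    exact hh
  · have h2 : h1 ∈ Jk N C (q + ts • v) := by
      change sg N C (q + ts • v) h1 = 0
      rw [hsq, hts, div_mul_cancel₀ _ hp1, sub_self]
    exact hs1 (hsub h2)

theorem move_all (N : ι → E) (C : ι → ℝ) : ∀ (k : ℕ) (q : E),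
    Fintype.card ι ≤ (Jk N C q).ncard + k →
    ∃ q' : E, (∀ h, ∃ κ : ℝ, 0 ≤ κ ∧ sg N C q' h = κ * sg N C q h) ∧
      Submodule.span ℝ (N '' Jk N C q') = Submodule.span ℝ (Set.range N) := by
  intro k
  induction k with
  | zero =>
    intro q hk
    refine ⟨q, fun h => ⟨1, zero_le_one, (one_mul _).symm⟩, ?_⟩
    have h1 : Jk N C q = Set.univ := by
      apply Set.eq_of_subset_of_ncard_le (Set.subset_univ _)
      rw [Set.ncard_univ, Nat.card_eq_fintype_card]
      omega
    rw [h1, Set.image_univ]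
  | succ k ih =>
    intro q hk
    by_cases hs : Submodule.span ℝ (N '' Jk N C q) = Submodule.span ℝ (Set.range N)
    · exact ⟨q, fun h => ⟨1, zero_le_one, (one_mul _).symm⟩, hs⟩
    · obtain ⟨q1, h1, h2⟩ := move N C q hs
      have h3 := Set.ncard_lt_ncard h2 (Set.toFinite _)
      obtain ⟨q2, h4, h5⟩ := ih q1 (by omega)
      refine ⟨q2, fun h => ?_, h5⟩
      obtain ⟨κ, hκ, e1⟩ := h1 h
      obtain ⟨κ', hκ', e2⟩ := h4 h
      exact ⟨κ' * κ, mul_nonneg hκ' hκ, by rw [e2, e1, mul_assoc]⟩

end move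

end Pool.Agent.Helper95.Ct
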